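import Pool.Agent.Helper45_Grig.Defs

/-! # Module GA: the first Grigorchuk group is infinite and contains its square coarsely -/

set_option autoImplicit false

namespace Helper14.Grig

open Helper45.Grig

theorem pair_mul (p q p' q' : Equiv.Perm (List Bool)) :
    pair p q * pair p' q' = pair (p * p') (q * q') := by
  ext1 w
  rcases w with _ | ⟨x, w⟩
  · rfl
  · cases x <;> rfl

theorem pair_one : pair 1 1 = 1 := by
  ext1 w
  rcases w with _ | ⟨x, w⟩
  · rfl
  · cases x <;> rfl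

theorem pair_inv (p q : Equiv.Perm (List Bool)) : (pair p q)⁻¹ = pair p⁻¹ q⁻¹ := by
  rw [inv_eq_iff_mul_eq_one, pair_mul, mul_inv_cancel, mul_inv_cancel, pair_one]

theorem pair_inj {p q p' q' : Equiv.Perm (List Bool)} (h : pair p q = pair p' q') :
    p = p' ∧ q = q' := by
  constructor
  · ext1 w
    have := congrArg (fun f : Equiv.Perm (List Bool) => f (false :: w)) h
    have h2 : (false :: p w : List Bool) = false :: p' w := this
    exact (List.cons.inj h2).2
  · ext1 w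
    have := congrArg (fun f : Equiv.Perm (List Bool) => f (true :: w)) h
    have h2 : (true :: q w : List Bool) = true :: q' w := this
    exact (List.cons.inj h2).2

theorem gb_eq : gb = pair ga gc := by
  ext1 w
  rcases w with _ | ⟨x, w⟩
  · rfl
  · cases x <;> rfl

theorem gc_eq : gc = pair ga gd := by
  ext1 w
  rcases w with _ | ⟨x, w⟩
  · rfl
  · cases x <;> rfl

theorem gd_eq : gd = pair 1 gb := by
  ext1 w
  rcases w with _ | ⟨x, w⟩
  · rfl
  · cases x <;> rfl

theorem ga_sq : ga * ga = 1 := by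
  ext1 w
  rcases w with _ | ⟨x, w⟩
  · rfl
  · cases x <;> rfl

theorem gdir_sq (i : Fin 3) : gdir i * gdir i = 1 := by
  ext1 w
  exact dirFun_dirFun w i

theorem gb_sq : gb * gb = 1 := gdir_sq 0
theorem gc_sq : gc * gc = 1 := gdir_sq 1
theorem gd_sq : gd * gd = 1 := gdir_sq 2

theorem ga_inv : ga⁻¹ = ga := inv_eq_of_mul_eq_one_left ga_sq
theorem gb_inv : gb⁻¹ = gb := inv_eq_of_mul_eq_one_left gb_sq
theorem gc_inv : gc⁻¹ = gc := inv_eq_of_mul_eq_one_left gc_sq
theorem gd_inv : gd⁻¹ = gd := inv_eq_of_mul_eq_one_left gd_sq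

theorem conj_ga (p q : Equiv.Perm (List Bool)) : ga * pair p q * ga = pair q p := by
  ext1 w
  rcases w with _ | ⟨x, w⟩
  · rfl
  · cases x <;> rfl

theorem dirs (w : List Bool) : dirFun 0 (dirFun 2 w) = dirFun 1 w ∧
    dirFun 1 (dirFun 0 w) = dirFun 2 w ∧ dirFun 2 (dirFun 1 w) = dirFun 0 w := by
  induction w with
  | nil => exact ⟨rfl, rfl, rfl⟩
  | cons x w ih =>
    cases x
    · refine ⟨rfl, ?_, rfl⟩
      simp [dirFun, flipFun_flipFun]
    · simp [dirFun, ih.1, ih.2.1, ih.2.2]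

theorem gb_gd : gb * gd = gc := by
  ext1 w
  exact (dirs w).1

theorem mem_ga : ga ∈ GG := Subgroup.subset_closure (by simp [gens])
theorem mem_gb : gb ∈ GG := Subgroup.subset_closure (by simp [gens])
theorem mem_gc : gc ∈ GG := Subgroup.subset_closure (by simp [gens])
theorem mem_gd : gd ∈ GG := Subgroup.subset_closure (by simp [gens])

/-- every element is a first section -/
theorem exists_fst (g : Equiv.Perm (List Bool)) (hg : g ∈ GG) : ∃ q ∈ GG, pair g q ∈ GG := by
  refine Subgroup.closure_induction (p := fun g _ => ∃ q ∈ GG, pair g q ∈ GG) ?_ ?_ ?_ ?_ hg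
  · intro x hx
    simp only [gens, Set.mem_insert_iff, Set.mem_singleton_iff] at hx
    rcases hx with rfl | rfl | rfl | rfl
    · exact ⟨gc, mem_gc, by rw [← gb_eq]; exact mem_gb⟩
    · refine ⟨1, one_mem _, ?_⟩
      rw [← conj_ga, ← gd_eq]
      exact mul_mem (mul_mem mem_ga mem_gd) mem_ga
    · refine ⟨ga, mem_ga, ?_⟩
      rw [← conj_ga, ← gb_eq]
      exact mul_mem (mul_mem mem_ga mem_gb) mem_ga
    · refine ⟨ga, mem_ga, ?_⟩
      rw [← conj_ga, ← gc_eq]
      exact mul_mem (mul_mem mem_ga mem_gc) mem_ga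
  · exact ⟨1, one_mem _, by rw [pair_one]; exact one_mem _⟩
  · rintro x y - - ⟨q, hq, h1⟩ ⟨q', hq', h2⟩
    exact ⟨q * q', mul_mem hq hq', by rw [← pair_mul]; exact mul_mem h1 h2⟩
  · rintro x - ⟨q, hq, h1⟩
    exact ⟨q⁻¹, inv_mem hq, by rw [← pair_inv]; exact inv_mem h1⟩

/-- the normal closure of `b` in the group, as a subgroup of the permutations -/
def BB : Subgroup (Equiv.Perm (List Bool)) :=
  Subgroup.closure {x | ∃ g ∈ GG, x = g * gb * g⁻¹}

theorem gb_mem_BB : gb ∈ BB := Subgroup.subset_closure ⟨1, one_mem _, by simp⟩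

theorem BB_conj {x s : Equiv.Perm (List Bool)} (hx : x ∈ BB) (hs : s ∈ GG) :
    s * x * s⁻¹ ∈ BB := by
  refine Subgroup.closure_induction (p := fun x _ => s * x * s⁻¹ ∈ BB) ?_ ?_ ?_ ?_ hx
  · rintro x ⟨g, hg, rfl⟩
    refine Subgroup.subset_closure ⟨s * g, mul_mem hs hg, ?_⟩
    group
  · simpa using one_mem BB
  · intro x y _ _ h1 h2
    have := mul_mem h1 h2
    have e : s * x * s⁻¹ * (s * y * s⁻¹) = s * (x * y) * s⁻¹ := by group
    rwa [e] at this
  · intro x _ h1
    have := inv_mem h1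
    have e : (s * x * s⁻¹)⁻¹ = s * x⁻¹ * s⁻¹ := by group
    rwa [e] at this

theorem pair_BB {x : Equiv.Perm (List Bool)} (hx : x ∈ BB) : pair 1 x ∈ GG := by
  refine Subgroup.closure_induction (p := fun x _ => pair 1 x ∈ GG) ?_ ?_ ?_ ?_ hx
  · rintro x ⟨g, hg, rfl⟩
    obtain ⟨q, -, hq⟩ := exists_fst g hg
    have h1 : pair q g ∈ GG := by
      rw [← conj_ga]
      exact mul_mem (mul_mem mem_ga hq) mem_ga
    have h2 : pair q g * gd * (pair q g)⁻¹ ∈ GG := mul_mem (mul_mem h1 mem_gd) (inv_mem h1)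
    rw [gd_eq, pair_inv, pair_mul, pair_mul] at h2
    have e : q * 1 * q⁻¹ = 1 := by group
    rwa [e] at h2
  · rw [pair_one]; exact one_mem _
  · intro x y _ _ h1 h2
    have := mul_mem h1 h2
    rwa [pair_mul, one_mul] at this
  · intro x _ h1
    have := inv_mem h1
    rwa [pair_inv, inv_one] at this

theorem adad : ga * gd * ga * gd = gd * ga * gd * ga := by
  have h1 : ga * gd * ga = pair gb 1 := by rw [gd_eq, conj_ga]
  have h2 : ga * gd * ga * gd = pair gb gb := by
    rw [h1, gd_eq, pair_mul, mul_one, one_mul]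
  have h3 : gd * ga * gd * ga = gd * (ga * gd * ga) := by simp only [mul_assoc]
  rw [h2, h3, h1, gd_eq, pair_mul, mul_one, one_mul]

/-- the dihedral group of order eight generated by `a` and `d` -/
def TT : Set (Equiv.Perm (List Bool)) :=
  {1, ga, gd, ga * gd, gd * ga, ga * gd * ga, gd * ga * gd, ga * gd * ga * gd}

theorem TT_fin : TT.Finite := by
  unfold TT
  exact Set.toFinite _

theorem TT_ga {t : Equiv.Perm (List Bool)} (ht : t ∈ TT) : t * ga ∈ TT := by
  simp only [TT, Set.mem_insert_iff, Set.mem_singleton_iff] at ht ⊢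
  rcases ht with rfl | rfl | rfl | rfl | rfl | rfl | rfl | rfl
  · simp
  · simp [ga_sq]
  · simp
  · simp
  · rw [mul_assoc, ga_sq]; simp
  · rw [mul_assoc, ga_sq]; simp
  · rw [← adad]; simp
  · rw [adad, mul_assoc, ga_sq]; simp

theorem TT_gd {t : Equiv.Perm (List Bool)} (ht : t ∈ TT) : t * gd ∈ TT := by
  simp only [TT, Set.mem_insert_iff, Set.mem_singleton_iff] at ht ⊢
  rcases ht with rfl | rfl | rfl | rfl | rfl | rfl | rfl | rfl
  · simp
  · simp
  · simp [gd_sq]
  · rw [mul_assoc, gd_sq]; simp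
  · simp
  · simp
  · rw [mul_assoc, gd_sq]; simp
  · rw [mul_assoc, gd_sq]; simp

theorem exists_T (h : Equiv.Perm (List Bool)) (hh : h ∈ GG) : ∃ t ∈ TT, h * t ∈ BB := by
  have key : ∀ s ∈ gens, ∀ h, (∃ t ∈ TT, h * t ∈ BB) → ∃ t ∈ TT, s * h * t ∈ BB := by
    rintro s hs h ⟨t, ht, hb⟩
    simp only [gens, Set.mem_insert_iff, Set.mem_singleton_iff] at hs
    rcases hs with rfl | rfl | rfl | rfl
    · refine ⟨t * ga, TT_ga ht, ?_⟩
      have := BB_conj hb mem_ga
      rw [ga_inv] at this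
      have e : ga * h * (t * ga) = ga * (h * t) * ga := by simp only [mul_assoc]
      rwa [e]
    · refine ⟨t, ht, ?_⟩
      have e : gb * h * t = gb * (h * t) := by simp only [mul_assoc]
      rw [e]
      exact mul_mem gb_mem_BB hb
    · refine ⟨t * gd, TT_gd ht, ?_⟩
      have h1 := BB_conj hb mem_gd
      rw [gd_inv] at h1
      have e : gc * h * (t * gd) = gb * (gd * (h * t) * gd) := by
        rw [← gb_gd]; simp only [mul_assoc]
      rw [e]
      exact mul_mem gb_mem_BB h1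
    · refine ⟨t * gd, TT_gd ht, ?_⟩
      have := BB_conj hb mem_gd
      rw [gd_inv] at this
      have e : gd * h * (t * gd) = gd * (h * t) * gd := by simp only [mul_assoc]
      rwa [e]
  have hinv : ∀ s ∈ gens, s⁻¹ = s := by
    intro s hs
    simp only [gens, Set.mem_insert_iff, Set.mem_singleton_iff] at hs
    rcases hs with rfl | rfl | rfl | rfl
    · exact ga_inv
    · exact gb_inv
    · exact gc_inv
    · exact gd_inv
  refine Subgroup.closure_induction_left (p := fun h _ => ∃ t ∈ TT, h * t ∈ BB) ?_ ?_ ?_ hh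
  · exact ⟨1, by simp [TT], by simpa using one_mem BB⟩
  · intro x hx y _ hy
    exact key x hx y hy
  · intro x hx y _ hy
    rw [hinv x hx]
    exact key x hx y hy

theorem exists_pair (g h : Equiv.Perm (List Bool)) (hg : g ∈ GG) (hh : h ∈ GG) :
    ∃ t ∈ TT, pair g (h * t) ∈ GG := by
  obtain ⟨q, hq, h1⟩ := exists_fst g hg
  obtain ⟨t, ht, hb⟩ := exists_T (q⁻¹ * h) (mul_mem (inv_mem hq) hh)
  refine ⟨t, ht, ?_⟩
  have h2 := mul_mem h1 (pair_BB hb)
  rw [pair_mul, mul_one] at h2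
  have e : q * (q⁻¹ * h * t) = h * t := by group
  rwa [e] at h2

theorem ga_ne_pair (p q : Equiv.Perm (List Bool)) : pair p q ≠ ga := by
  intro h
  have h1 := congrArg (fun f : Equiv.Perm (List Bool) => f [false]) h
  have h2 : (false :: p [] : List Bool) = [true] := h1
  have := (List.cons.inj h2).1
  exact absurd this (by decide)

theorem algebra_part : Infinite Helper45.Grig.GG ∧ ∃ β : GG → GG → GG,
    (∀ F : Finset GG, ∃ F' : Finset GG, ∀ g g' h h', g⁻¹ * g' ∈ F → h⁻¹ * h' ∈ F →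
      (β g h)⁻¹ * β g' h' ∈ F') ∧
    (∀ F : Finset GG, ∃ F' : Finset GG, ∀ g g' h h', (β g h)⁻¹ * β g' h' ∈ F →
      g⁻¹ * g' ∈ F' ∧ h⁻¹ * h' ∈ F') := by
  classical
  have hex : ∀ g h : GG, ∃ t ∈ TT, pair g.1 (h.1 * t) ∈ GG :=
    fun g h => exists_pair g.1 h.1 g.2 h.2
  choose τ hτ hτ2 using hex
  let β : GG → GG → GG := fun g h => ⟨pair g.1 (h.1 * τ g h), hτ2 g h⟩
  have hβ : ∀ g h g' h' : GG, ((β g h)⁻¹ * β g' h').1 =
      pair (g⁻¹ * g').1 ((τ g h)⁻¹ * (h⁻¹ * h').1 * τ g' h') := by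
    intro g h g' h'
    show (pair g.1 (h.1 * τ g h))⁻¹ * pair g'.1 (h'.1 * τ g' h') = _
    rw [pair_inv, pair_mul]
    congr 1
  refine ⟨?_, β, ?_, ?_⟩
  · by_contra hcon
    rw [not_infinite_iff_finite] at hcon
    have hinj : Function.Injective (fun g : GG => β g 1) := by
      intro g g' hgg
      have h1 : pair g.1 (1 * τ g 1) = pair g'.1 (1 * τ g' 1) := congrArg Subtype.val hgg
      exact Subtype.ext (pair_inj h1).1
    obtain ⟨g, hg⟩ := Finite.surjective_of_injective hinj ⟨ga, mem_ga⟩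
    exact ga_ne_pair _ _ (congrArg Subtype.val hg)
  · intro F
    have hfin : {z : GG | ∃ x ∈ F, ∃ y ∈ F, ∃ t ∈ TT, ∃ t' ∈ TT,
        z.1 = pair x.1 (t⁻¹ * y.1 * t')}.Finite := by
      have h1 : (⋃ x ∈ F, ⋃ y ∈ F, ⋃ t ∈ TT, ⋃ t' ∈ TT,
          ({pair x.1 (t⁻¹ * y.1 * t')} : Set (Equiv.Perm (List Bool)))).Finite := by
        refine F.finite_toSet.biUnion (fun x _ => F.finite_toSet.biUnion (fun y _ =>
          TT_fin.biUnion (fun t _ => TT_fin.biUnion (fun t' _ => Set.finite_singleton _))))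
      refine Set.Finite.subset (Set.Finite.preimage (f := (Subtype.val : GG → _))
        (Subtype.val_injective.injOn) h1) ?_
      rintro z ⟨x, hx, y, hy, t, ht, t', ht', hz⟩
      simp only [Set.mem_preimage, Set.mem_iUnion]
      exact ⟨x, hx, y, hy, t, ht, t', ht', hz⟩
    refine ⟨hfin.toFinset, fun g g' h h' h1 h2 => ?_⟩
    rw [Set.Finite.mem_toFinset]
    exact ⟨_, h1, _, h2, _, hτ g h, _, hτ g' h', hβ g h g' h'⟩
  · intro F
    have hfin1 : {x : GG | ∃ z ∈ F, ∃ v, pair x.1 v = z.1}.Finite := by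
      have h1 : (⋃ z ∈ F, {x : GG | ∃ v, pair x.1 v = z.1}).Finite := by
        refine F.finite_toSet.biUnion (fun z _ => Set.Subsingleton.finite ?_)
        rintro x ⟨v, hv⟩ x' ⟨v', hv'⟩
        exact Subtype.ext (pair_inj (hv.trans hv'.symm)).1
      refine h1.subset ?_
      rintro x ⟨z, hz, hv⟩
      simp only [Set.mem_iUnion]
      exact ⟨z, hz, hv⟩
    have hfin2 : {y : GG | ∃ z ∈ F, ∃ t ∈ TT, ∃ t' ∈ TT, ∃ u, pair u (t⁻¹ * y.1 * t') = z.1}.Finite := by
      have h1 : (⋃ z ∈ F, ⋃ t ∈ TT, ⋃ t' ∈ TT,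
          {y : GG | ∃ u, pair u (t⁻¹ * y.1 * t') = z.1}).Finite := by
        refine F.finite_toSet.biUnion (fun z _ => TT_fin.biUnion (fun t _ =>
          TT_fin.biUnion (fun t' _ => Set.Subsingleton.finite ?_)))
        rintro y ⟨u, hu⟩ y' ⟨u', hu'⟩
        have h2 := (pair_inj (hu.trans hu'.symm)).2
        exact Subtype.ext (mul_left_cancel (mul_right_cancel h2))
      refine h1.subset ?_
      rintro y ⟨z, hz, t, ht, t', ht', hu⟩
      simp only [Set.mem_iUnion]
      exact ⟨z, hz, t, ht, t', ht', hu⟩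
    refine ⟨hfin1.toFinset ∪ hfin2.toFinset, fun g g' h h' h1 => ?_⟩
    rw [Finset.mem_union, Finset.mem_union, Set.Finite.mem_toFinset, Set.Finite.mem_toFinset,
      Set.Finite.mem_toFinset, Set.Finite.mem_toFinset]
    exact ⟨Or.inl ⟨_, h1, _, (hβ g h g' h').symm⟩,
      Or.inr ⟨_, h1, _, hτ g h, _, hτ g' h', _, (hβ g h g' h').symm⟩⟩

end Helper14.Grig
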